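import Mathlib

open Filter Topology

namespace Pool.Agent.Results.MP_93a94a_an.Empty

/-- Positive solutions, with indices shifted by `2k+2`. -/
def Sol (k : ℕ) (α x : ℕ → ℝ) : Prop :=
  (∀ n, 0 < x n) ∧ ∀ n, x (n + 2 * k + 3) =
    α n / ∏ j ∈ Finset.range (k + 1), x (n + 2 * k + 2 - j) + 1 / ∏ j ∈ Finset.range (k + 1), x (n + j)

theorem result (k p : ℕ) (α : ℕ → ℝ) (hp : 2 ≤ p) (h0 : ∀ n, 0 ≤ α n)
    (hper : IsLeast {q | 0 < q ∧ ∀ n, α (n + q) = α n} p) :
    ¬ ∀ x, Sol k α x → ∃ y, Sol k α y ∧ (∀ n, y (n + (k + 2)) = y n) ∧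
      Tendsto (fun n => x n - y n) atTop (𝓝 0) := by
  intro h
  have hex : ∃ x, Sol k α x := by
    let F : (n : ℕ) → ((m : ℕ) → m < n → ℝ) → ℝ := fun n f =>
      let g : ℕ → ℝ := fun m => if h : m < n then f m h else 1
      if n < 2 * k + 3 then 1 else α (n - (2 * k + 3)) / ∏ j ∈ Finset.range (k + 1), g (n - 1 - j) +
        1 / ∏ j ∈ Finset.range (k + 1), g (n - (2 * k + 3) + j)
    let x : ℕ → ℝ := fun n => Nat.strongRec F n
    have hx : ∀ n, x n = F n fun m _ => x m := fun n => Nat.strongRec_eq F n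
    have hr : ∀ n, x (n + 2 * k + 3) = α n / ∏ j ∈ Finset.range (k + 1), x (n + 2 * k + 2 - j) +
        1 / ∏ j ∈ Finset.range (k + 1), x (n + j) := by
      intro n
      rw [hx]
      simp only [F]
      rw [if_neg (by omega), show n + 2 * k + 3 - (2 * k + 3) = n by omega]
      congr 2
      · exact Finset.prod_congr rfl fun j _ => by rw [dif_pos (by omega)]; rfl
      · exact Finset.prod_congr rfl fun j hj => by
          rw [dif_pos (by have := Finset.mem_range.1 hj; omega)]
    refine ⟨x, fun n => ?_, hr⟩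
    induction n using Nat.strong_induction_on with
    | _ n ih =>
      by_cases hn : n < 2 * k + 3
      · rw [hx]; simp only [F]; rw [if_pos hn]; exact one_pos
      · obtain ⟨m, rfl⟩ : ∃ m, n = m + 2 * k + 3 := ⟨n - (2 * k + 3), by omega⟩
        rw [hr]
        exact add_pos_of_nonneg_of_pos (div_nonneg (h0 m) (Finset.prod_nonneg fun j _ =>
          (ih _ (by omega)).le)) (one_div_pos.2 (Finset.prod_pos fun j hj =>
            ih _ (by have := Finset.mem_range.1 hj; omega)))
  obtain ⟨x, hx⟩ := hex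
  obtain ⟨y, ⟨hy, hr⟩, hq, -⟩ := h x hx
  have key : ∀ n, α n = ∏ j ∈ Finset.range (k + 2), y (n + j) - 1 := by
    intro n
    have e1 : ∏ j ∈ Finset.range (k + 1), y (n + 2 * k + 2 - j) =
        ∏ j ∈ Finset.range (k + 1), y (n + j) := by
      rw [← Finset.prod_range_reflect]
      refine Finset.prod_congr rfl fun j hj => ?_
      have := Finset.mem_range.1 hj
      rw [← hq (n + j)]
      congr 1
      omega
    have e2 := hr n
    rw [e1, show n + 2 * k + 3 = n + (k + 1) + (k + 2) by ring, hq] at e2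
    have hP : 0 < ∏ j ∈ Finset.range (k + 1), y (n + j) := Finset.prod_pos fun j _ => hy _
    rw [Finset.prod_range_succ, e2]
    field_simp
    ring
  have : p ≤ 1 := hper.2 ⟨one_pos, fun n => by
    rw [key, key, Finset.prod_range_succ, Finset.prod_range_succ' _ (k + 1),
      show n + 1 + (k + 1) = n + (k + 2) by ring, hq]
    simp only [add_assoc, add_comm 1, add_zero]⟩
  omega

end Pool.Agent.Results.MP_93a94a_an.Empty
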